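import Pool.Agent.Q280.ML.EllC
import Pool.Agent.Q280.ML.EllF

/-!
# The canonical subspace of a lattice for the elliptic analogue of Schanuel's conjecture

`L` is a pair of periods `ω₁, ω₂` (independent over `ℝ`), `L.lattice = ℤ ω₁ + ℤ ω₂ = Ω`, and `℘[L]`, `L.g₂`, `L.g₃`
are Mathlib's Weierstrass function and invariants.

The conjecture says that `trdeg ℚ(g₂, g₃, pᵢ, ℘(pᵢ), ζ(pᵢ)) ≥ 2 n` for all `p₁, …, pₙ` outside `Ω` which are linearly
independent over `k = ℚ ⊗ End(ℂ / Ω)`.

The theorem: every lattice has a smallest `k`-subspace `B` of `ℂ` over which the conjecture holds exactly: for all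
`p₁, …, pₙ` outside `Ω`, linearly independent modulo `B`, `2 n` of the `3 n` numbers `pᵢ`, `℘(pᵢ)`, `ζ(pᵢ)` are
algebraically independent over the field generated by `g₂, g₃` and all `b`, `℘(b)`, `ζ(b)` with `b` in `B`. The space
`B` is countable, and it decides the conjecture for `L`.

## The proof (in `Pool.Agent.Q280.ML`)

* `2 dim V - trdeg (V)` is a supermodular function on the finite dimensional subspaces. The subspaces all of whose
  proper subspaces have a smaller value form a directed family, and `B` is its union (`ML.Core`).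
* The set `K` of a countable field closed under everything in sight (`Pool.Agent.Y685`, earlier work of this pool, with
  Ax's theorem for a fixed elliptic curve) is an exact subspace for all lattices with periods in `K`; therefore `B` is
  contained in it.
-/

set_option autoImplicit false

open Module
open scoped PeriodPair

namespace Pool.Agent.Results.MP_2ad15a_nt.CanonicalSubspace

/-- The Weierstrass zeta function `ζ(z) = ∑ (1/(z-l) + 1/l + z/l²)`, the sum over the lattice (the summand of `l = 0` is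
`1/z`, since `1/0 = 0` in Lean). -/
noncomputable def ζ (L : PeriodPair) (z : ℂ) : ℂ := ∑' l : L.lattice, (1 / (z - l) + 1 / l + z / l ^ 2)

/-- The `j`-invariant of a lattice. -/
noncomputable def j (L : PeriodPair) : ℂ := 1728 * L.g₂ ^ 3 / (L.g₂ ^ 3 - 27 * L.g₃ ^ 2)

/-- the field `k = ℚ ⊗ End(ℂ / Ω)` as a subfield of `ℂ`; see `mem_k` -/
noncomputable abbrev k (L : PeriodPair) : IntermediateField ℚ ℂ := Pool.Agent.TH813.Ell.kL L

/-- `k` consists of the numbers `c` such that `n c` maps the lattice to itself for some `n > 0` -/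
theorem mem_k {L : PeriodPair} {c : ℂ} :
    c ∈ k L ↔ ∃ n : ℕ, 0 < n ∧ ∀ w ∈ L.lattice, (n * c) * w ∈ L.lattice := Iff.rfl

/-- the transcendence degree over `ℚ` of the field generated by `S` -/
noncomputable def trd (S : Set ℂ) : Cardinal := Algebra.trdeg ℚ (IntermediateField.adjoin ℚ S)

/-- the numbers `pᵢ`, `℘(pᵢ)`, `ζ(pᵢ)` -/
def points (L : PeriodPair) {n : ℕ} (p : Fin n → ℂ) : Set ℂ := {x | ∃ i, x = p i ∨ x = ℘[L] (p i) ∨ x = ζ L (p i)}

/-- the numbers `g₂`, `g₃` and all `v`, `ζ(v)`, `℘(v)` with `v` in `V` (`ζ` and `℘` are only taken outside the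
lattice) -/
def numbers (L : PeriodPair) (V : Submodule (k L) ℂ) : Set ℂ :=
  {L.g₂, L.g₃} ∪ ((V : Set ℂ) ∪ (ζ L '' ((V : Set ℂ) \ (L.lattice : Set ℂ)) ∪
    ℘[L] '' ((V : Set ℂ) \ (L.lattice : Set ℂ))))

/-- The elliptic analogue of Schanuel's conjecture for the lattice `L` with the error `C`:
`trdeg ℚ(g₂, g₃, pᵢ, ℘(pᵢ), ζ(pᵢ)) ≥ 2 n - C` for all `p₁, …, pₙ` outside the lattice, linearly independent over `k`.
For `C = 0` this is question Q1 for the lattice `L`. -/
def Schanuel (L : PeriodPair) (C : ℕ) : Prop :=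
  ∀ (n : ℕ) (p : Fin n → ℂ), (∀ i, p i ∉ L.lattice) → LinearIndependent (k L) p →
    ((2 * n : ℕ) : Cardinal) ≤ trd ({L.g₂, L.g₃} ∪ points L p) + C

/-- The conjecture holds exactly over the space `B`: for all `p₁, …, pₙ` outside the lattice, linearly independent over
`k` modulo `B`, some `2 n` of the numbers `pᵢ`, `℘(pᵢ)`, `ζ(pᵢ)` are algebraically independent over the field generated by
the numbers of `B`. -/
def ExactOver (L : PeriodPair) (B : Submodule (k L) ℂ) : Prop :=
  ∀ (n : ℕ) (p : Fin n → ℂ), (∀ i, p i ∉ L.lattice) → LinearIndependent (k L) (fun i => B.mkQ (p i)) →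
    ∃ w : Fin (2 * n) → ℂ, (∀ l, w l ∈ points L p) ∧
      AlgebraicIndependent (IntermediateField.adjoin ℚ (numbers L B)) w

/-- the defect `2 dim V - trdeg (V)` of a finite dimensional space -/
noncomputable def defect (L : PeriodPair) (V : Submodule (k L) ℂ) : ℤ :=
  2 * (finrank (k L) V : ℤ) - ((trd (numbers L V)).toNat : ℤ)

/-- a finite dimensional space all of whose proper subspaces have a smaller defect -/
def Tight (L : PeriodPair) (V : Submodule (k L) ℂ) : Prop :=
  FiniteDimensional (k L) V ∧ ∀ W, W < V → defect L W < defect L V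

section

open Pool.Agent.Q280.ML

variable {L : PeriodPair}

theorem points_eq {n : ℕ} (p : Fin n → ℂ) : points L p = pts L p := by
  ext x
  simp only [points, pts, Set.mem_iUnion, Set.mem_insert_iff, Set.mem_singleton_iff, Set.mem_ofPred_eq]
  exact Iff.rfl

theorem exact_eq (B : Submodule (k L) ℂ) : ExactOver L B ↔ Exact L B := by
  unfold ExactOver Exact
  simp only [points_eq]
  exact Iff.rfl

theorem defect_eq {V : Submodule (k L) ℂ} (hV : FiniteDimensional (k L) V) :
    defect L V = LSys.dfc (A := EllSys L) V := by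
  have h1 : (trd (numbers L V)).toNat = (Q241.SX.M.eRk (Nums L V)).toNat :=
    Pool.Agent.Q280.SD.trdeg_adjoin (Nums L V) (Nums_rk hV)
  unfold defect LSys.dfc LSys.rk
  rw [h1]
  change _ = ((2 * finrank (k L) V : ℕ) : ℤ) - _
  push_cast
  rfl

theorem tight_iff {V : Submodule (k L) ℂ} : Tight L V ↔ FiniteDimensional (k L) V ∧
    ∀ W, W < V → LSys.dfc (A := EllSys L) W < LSys.dfc (A := EllSys L) V := by
  unfold Tight
  refine and_congr_right fun hV => forall_congr' fun W => imp_congr_right fun hW => ?_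
  rw [defect_eq hV, defect_eq (fd_le hV hW.le)]

theorem trd_eq {S : Set ℂ} (hS : S.Finite) : ∃ r : ℕ, Q241.SX.M.eRk S = (r : ℕ∞) ∧ trd S = (r : Cardinal) :=
  Pool.Agent.Y685.trd_eq ℚ hS

theorem fin_points {n : ℕ} (p : Fin n → ℂ) : ({L.g₂, L.g₃} ∪ pts L p).Finite :=
  (Set.toFinite _).union (pts_finite p)

theorem schanuel_iff (C : ℕ) : Schanuel L C ↔
    FiniteDimensional (k L) (CB L) ∧ LSys.dfc (A := EllSys L) (CB L) ≤ C := by
  rw [← bound_CB, ← bound_iff]
  unfold Schanuel
  refine forall_congr' fun n => forall_congr' fun p => imp_congr_right fun _ => imp_congr_right fun _ => ?_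
  rw [points_eq]
  obtain ⟨r, h1, h2⟩ := trd_eq (fin_points (L := L) p)
  rw [h1, h2]
  norm_cast

theorem bot_iff : CB L = ⊥ ↔ ∀ (n : ℕ) (p : Fin n → ℂ), (∀ i, p i ∉ L.lattice) → LinearIndependent (k L) p →
    ((2 * n : ℕ) : Cardinal) + trd {L.g₂, L.g₃} ≤ trd ({L.g₂, L.g₃} ∪ points L p) := by
  obtain ⟨s, hs1, hs2⟩ := trd_eq (S := {L.g₂, L.g₃}) (Set.toFinite _)
  have hbot : LSys.dfc (A := EllSys L) (⊥ : Submodule (k L) ℂ) = -(s : ℤ) := by
    have h1 : Q241.SX.M.eRk (Nums L ((⊥ : Submodule (k L) ℂ) : Set ℂ)) = s := by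
      rw [Nums_bot, ← hs1]
      apply le_antisymm
      · rw [← Q241.SX.M.eRk_closure_eq {L.g₂, L.g₃}]
        refine Q241.SX.M.eRk_mono (Set.union_subset (Matroid.subset_closure _ _ (by simp)) ?_)
        rintro x hx
        rw [Set.mem_singleton_iff.mp hx]
        exact Q88.ETO.cl_alg isAlgebraic_zero
      · exact Q241.SX.M.eRk_mono Set.subset_union_left
    unfold LSys.dfc LSys.rk
    change ((2 * finrank (k L) (⊥ : Submodule (k L) ℂ) : ℕ) : ℤ) -
      ((Q241.SX.M.eRk (Nums L ((⊥ : Submodule (k L) ℂ) : Set ℂ))).toNat : ℤ) = _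
    rw [h1, finrank_bot]
    simp
  rw [CB_bot]
  constructor
  · intro h n p hp hi
    have h1 := h _ (fd_span (Set.finite_range p))
    rw [hbot] at h1
    obtain ⟨r, h2, h3⟩ := trd_eq (fin_points (L := L) p)
    rw [points_eq, h3, hs2]
    have h4 : finrank (k L) (Submodule.span (k L) (Set.range p)) = n := by
      rw [finrank_span_eq_card hi, Fintype.card_fin]
    unfold LSys.dfc LSys.rk at h1
    change ((2 * finrank (k L) (Submodule.span (k L) (Set.range p)) : ℕ) : ℤ) -
      ((Q241.SX.M.eRk (Nums L (Submodule.span (k L) (Set.range p)))).toNat : ℤ) ≤ _ at h1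
    rw [rk_span hp, h2, h4, ENat.toNat_natCast] at h1
    have h5 : 2 * n + s ≤ r := by omega
    exact_mod_cast h5
  · intro h V hV
    obtain ⟨p, h1, h2, h3⟩ := Pool.Agent.TH813.Ell.exists_basis_off (L := L) V
    have h4 := h _ p h3 h1
    obtain ⟨r, h5, h6⟩ := trd_eq (fin_points (L := L) p)
    rw [points_eq, h6, hs2] at h4
    have h7 : 2 * finrank (k L) V + s ≤ r := by exact_mod_cast h4
    rw [← rk_span h3, span_eq hV h1 h2] at h5
    rw [hbot]
    unfold LSys.dfc LSys.rk
    change ((2 * finrank (k L) V : ℕ) : ℤ) - ((Q241.SX.M.eRk (Nums L V)).toNat : ℤ) ≤ _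
    rw [h5, ENat.toNat_natCast]
    omega

theorem trd_alg (h2 : IsAlgebraic ℚ L.g₂) (h3 : IsAlgebraic ℚ L.g₃) : trd {L.g₂, L.g₃} = 0 := by
  obtain ⟨s, hs1, hs2⟩ := trd_eq (S := {L.g₂, L.g₃}) (Set.toFinite _)
  have h4 : Q241.SX.M.eRk {L.g₂, L.g₃} ≤ 0 := by
    rw [← Q241.SX.M.eRk_empty, ← Q241.SX.M.eRk_closure_eq ∅]
    refine Q241.SX.M.eRk_mono ?_
    rintro x (rfl | hx)
    · exact Q88.ETO.cl_alg h2
    · rw [Set.mem_singleton_iff.mp hx]
      exact Q88.ETO.cl_alg h3
  rw [hs1] at h4
  have h5 : s = 0 := by exact_mod_cast (nonpos_iff_eq_zero.mp h4)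
  rw [hs2, h5, Nat.cast_zero]

end

/-- **Main result.** There is a countable set `F` of complex numbers such that for every lattice `L` there is a
`k`-subspace `B` of `ℂ` with the following properties.

(1) The conjecture holds exactly over `B`, and `B` is contained in every space over which it holds exactly.
(2) `B` is the union of the finite dimensional spaces all of whose proper subspaces have a smaller defect.
(3) The defect of a finite dimensional space `V` is at most the defect of `V ∩ B`.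
(4) For every `C` the conjecture holds for `L` with the error `C` if and only if `B` is finite dimensional and has defect
at most `C`.
(5) `B = 0` if and only if always `trdeg ℚ(g₂, g₃, pᵢ, ℘(pᵢ), ζ(pᵢ)) ≥ 2 n + trdeg ℚ(g₂, g₃)`; so for algebraic `g₂, g₃`
the conjecture holds for `L` if and only if `B = 0`.
(6) `B` is countable.
(7) If the lattice is stable under complex conjugation then so is `B`.
(8) If `j(L)` is not in `F` then `B` is finite dimensional and has a negative defect.
(9) If `j(L)` is in `F` then for some `c ≠ 0` the numbers `c ω₁`, `c ω₂` and the set `c B` are contained in `F`. -/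
theorem result : ∃ F : Set ℂ, F.Countable ∧ ∀ L : PeriodPair, ∃ B : Submodule (k L) ℂ,
    (ExactOver L B ∧ ∀ B' : Submodule (k L) ℂ, ExactOver L B' → B ≤ B') ∧
    (∀ z, z ∈ B ↔ ∃ V, Tight L V ∧ z ∈ V) ∧
    (∀ V : Submodule (k L) ℂ, FiniteDimensional (k L) V → defect L V ≤ defect L (V ⊓ B)) ∧
    (∀ C : ℕ, Schanuel L C ↔ FiniteDimensional (k L) B ∧ defect L B ≤ C) ∧
    ((B = ⊥ ↔ ∀ (n : ℕ) (p : Fin n → ℂ), (∀ i, p i ∉ L.lattice) → LinearIndependent (k L) p →
        ((2 * n : ℕ) : Cardinal) + trd {L.g₂, L.g₃} ≤ trd ({L.g₂, L.g₃} ∪ points L p)) ∧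
      (IsAlgebraic ℚ L.g₂ → IsAlgebraic ℚ L.g₃ → (Schanuel L 0 ↔ B = ⊥))) ∧
    (B : Set ℂ).Countable ∧
    ((∀ w ∈ L.lattice, (starRingEnd ℂ) w ∈ L.lattice) → ∀ z ∈ B, (starRingEnd ℂ) z ∈ B) ∧
    (j L ∉ F → FiniteDimensional (k L) B ∧ defect L B < 0) ∧
    (j L ∈ F → ∃ c : ℂ, c ≠ 0 ∧ c * L.ω₁ ∈ F ∧ c * L.ω₂ ∈ F ∧ ∀ z ∈ B, c * z ∈ F) := by
  open Pool.Agent.Q280.ML in
  obtain ⟨F, hF, h⟩ := uniform_CB
  refine ⟨F, hF, fun L => ⟨CB L, ⟨(exact_eq _).mpr exact_CB, fun B' hB' => CB_le ((exact_eq B').mp hB')⟩, fun z => ?_,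
    fun V hV => ?_, fun C => ?_, ⟨bot_iff, fun h2 h3 => ?_⟩, countable_CB L, fun hL z hz => conj_CB hL hz,
    fun hj => ?_, fun hj => (h L).1 hj⟩⟩
  · rw [mem_CB]
    simp only [tight_iff, and_assoc]
  · rw [defect_eq hV, defect_eq (fd_le hV inf_le_left)]
    exact exact_iff.mp exact_CB V hV
  · rw [schanuel_iff]
    refine and_congr_right fun hf => ?_
    rw [defect_eq hf]
  · rw [bot_iff, trd_alg h2 h3]
    unfold Schanuel
    simp only [add_zero, Nat.cast_zero]
  · have h1 : ∀ V : Submodule (k L) ℂ, FiniteDimensional (k L) V → LSys.dfc (A := EllSys L) V ≤ -1 := by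
      intro V hV
      obtain ⟨p, h1, h2, h3⟩ := Pool.Agent.TH813.Ell.exists_basis_off (L := L) V
      have hpQ : LinearIndependent ℚ p := h1.restrict_scalars (fun a b hab => by
        have h1 : ((algebraMap ℚ (k L) a : k L) : ℂ) = ((algebraMap ℚ (k L) b : k L) : ℂ) := by
          have h2 : algebraMap ℚ (k L) a = algebraMap ℚ (k L) b := by
            simpa [Algebra.smul_def] using hab
          rw [h2]
        simpa using h1)
      have h4 := (h L).2 hj _ p h3 hpQ
      rw [← rk_span h3, span_eq hV h1 h2, ← ENat.natCast_toNat (Nums_rk hV)] at h4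
      have h5 : 2 * finrank (k L) V + 1 ≤ (Q241.SX.M.eRk (Nums L V)).toNat := by exact_mod_cast h4
      unfold LSys.dfc LSys.rk
      change ((2 * finrank (k L) V : ℕ) : ℤ) - ((Q241.SX.M.eRk (Nums L V)).toNat : ℤ) ≤ _
      omega
    obtain ⟨h2, h3⟩ := (bound_CB (-1)).mp h1
    refine ⟨h2, ?_⟩
    rw [defect_eq h2]
    omega

end Pool.Agent.Results.MP_2ad15a_nt.CanonicalSubspace
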