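import Mathlib
import Pool.Agent.Q257.RF.C

/-!
# The elliptic analogue of Schanuel's conjecture is a statement about real numbers

`L` is a pair of periods `ω₁, ω₂` (independent over `ℝ`), `L.lattice = ℤ ω₁ + ℤ ω₂ = Ω`, and `℘[L]`, `L.g₂`, `L.g₃`
are Mathlib's Weierstrass function and invariants. The definitions of `ζ`, of `k L` (the field `ℚ ⊗ End(ℂ / Ω)`) and of
`trd ℚ` (transcendence degree of the field generated by a set) are in `Pool.Agent.Y776.EtDefs`.

`Schanuel L C` is the conjecture for the lattice `Ω` with the error `C`: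
`trdeg ℚ(g₂, g₃, pᵢ, ℘(pᵢ), ζ(pᵢ)) ≥ 2 n - C` for all `p₁, …, pₙ` outside `Ω`, linearly independent over `k`.

1. For any lattice `Schanuel L C` is equivalent to the inequality `trdeg ℚ(g₂, g₃, v, ℘(v), ζ(v) : v ∈ V) ≥ 2 dim_k V - C`
for the spaces `V` over any number field `K ⊇ k` which contain any prescribed finite set of closed form numbers and
whose dimension over `K` belongs to any prescribed infinite set `D`.
2. Let `Ω` be stable under complex conjugation, without complex multiplication. Then `Schanuel L C` is equivalent to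
`trdeg ℚ(g₂, g₃, xⱼ, ℘(xⱼ), ζ(xⱼ), ℘(i xⱼ), ζ(i xⱼ)) ≥ 4 n - C` for *real* numbers `x₁, …, xₙ` in any prescribed
interval, linearly independent over `ℚ`, with any prescribed finite set of real closed form numbers in their span, and
for `n` in any prescribed infinite set.
3. Let `Ω` be stable under complex conjugation, with complex multiplication. Then `Schanuel L C` is equivalent to
`trdeg ℚ(g₂, g₃, xⱼ, ℘(xⱼ), ζ(xⱼ)) ≥ 2 n - C` for the same tuples of real numbers.

## The proof (in `Pool.Agent.Q257.RF`)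

`2 dim V - trdeg (V)` does not decrease if one adds to `V` a number `x` for which `x, ℘(x), ζ(x)` are algebraically
dependent over the field of `V`; this leads from spaces over `k` to spaces over `K` which contain `S` and have a
dimension in `D`. It is supermodular and invariant under complex conjugation, so it is enough to consider the spaces
stable under conjugation. If `K` contains a number which is not real, then such a space has a basis of real numbers, and
they may be multiplied by rational numbers.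
-/

set_option autoImplicit false

open Module
open scoped PeriodPair ComplexConjugate

namespace Pool.Agent.Results.MP_2ad15a_nt.RealForm

open Pool.Agent.Y776.Et (ζ k trd)

/-- the numbers `pᵢ`, `℘(pᵢ)`, `ζ(pᵢ)` -/
def points (L : PeriodPair) {n : ℕ} (p : Fin n → ℂ) : Set ℂ := {z | ∃ i, z = p i ∨ z = ℘[L] (p i) ∨ z = ζ L (p i)}

/-- the numbers `g₂`, `g₃` and all `v`, `ζ(v)`, `℘(v)` with `v` in `V` (`ζ` and `℘` are only taken outside the
lattice) -/
def numbers (L : PeriodPair) (V : Set ℂ) : Set ℂ :=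
  {L.g₂, L.g₃} ∪ (V ∪ (ζ L '' (V \ (L.lattice : Set ℂ)) ∪ ℘[L] '' (V \ (L.lattice : Set ℂ))))

/-- The elliptic analogue of Schanuel's conjecture for the lattice `L` with the error `C`:
`trdeg ℚ(g₂, g₃, pᵢ, ℘(pᵢ), ζ(pᵢ)) ≥ 2 n - C` for all `p₁, …, pₙ` outside the lattice, linearly independent over `k`.
For `C = 0` this is question Q1 for the lattice `L`. -/
def Schanuel (L : PeriodPair) (C : ℕ) : Prop :=
  ∀ (n : ℕ) (p : Fin n → ℂ), (∀ i, p i ∉ L.lattice) → LinearIndependent (k L) p →
    ((2 * n : ℕ) : Cardinal) ≤ trd ℚ ({L.g₂, L.g₃} ∪ points L p) + C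

/-- The smallest set of complex numbers which contains `x` (outside the lattice) as soon as, for some finite subset `F`
of it and the field `E` generated by `g₂`, `g₃` and by `v`, `ζ(v)`, `℘(v)` with `v` in `F`: `x` is algebraic over `E`,
or `℘(x)` is algebraic over `E(x)`, or `ζ(x)` is algebraic over `E(x, ℘(x))`. -/
inductive ClosedForm (L : PeriodPair) : ℂ → Prop
  | intro (F : Finset ℂ) (x : ℂ) (hF : ∀ y ∈ F, ClosedForm L y) (hxL : x ∉ L.lattice)
      (hx : IsAlgebraic (IntermediateField.adjoin ℚ (numbers L F)) x ∨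
        IsAlgebraic (IntermediateField.adjoin ℚ (insert x (numbers L F))) (℘[L] x) ∨
        IsAlgebraic (IntermediateField.adjoin ℚ (insert x (insert (℘[L] x) (numbers L F)))) (ζ L x)) :
      ClosedForm L x

/-- `x₁, …, xₙ` are real numbers in `U`, linearly independent over `ℚ`, with `xⱼ` and `i xⱼ` outside the lattice, and
`S` is contained in their span over `ℚ`. -/
def Admissible (L : PeriodPair) (S : Finset ℝ) (U : Set ℝ) {n : ℕ} (x : Fin n → ℝ) : Prop :=
  LinearIndependent ℚ x ∧ (∀ j, x j ∈ U ∧ (x j : ℂ) ∉ L.lattice ∧ Complex.I * (x j : ℂ) ∉ L.lattice) ∧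
    ∀ s ∈ S, s ∈ Submodule.span ℚ (Set.range x)

/-- the numbers `xⱼ`, `℘(xⱼ)`, `ζ(xⱼ)`, `℘(i xⱼ)`, `ζ(i xⱼ)` -/
def realPoints (L : PeriodPair) {n : ℕ} (x : Fin n → ℝ) : Set ℂ :=
  {z | ∃ j, z = x j ∨ z = ℘[L] (x j) ∨ z = ζ L (x j) ∨ z = ℘[L] (Complex.I * x j) ∨ z = ζ L (Complex.I * x j)}

section

open Pool.Agent.Q280.ML Pool.Agent.Q257.RF

variable {L : PeriodPair}

theorem points_eq {n : ℕ} (p : Fin n → ℂ) : points L p = pts L p := by
  ext x
  simp only [points, pts, Set.mem_iUnion, Set.mem_insert_iff, Set.mem_singleton_iff, Set.mem_ofPred_eq]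

theorem closedForm {x : ℂ} (h : ClosedForm L x) : Pool.Agent.Q257.RF.ClosedForm L x := by
  induction h with
  | intro F x _ hxL hx ih => exact Pool.Agent.Q257.RF.ClosedForm.intro F x ih hxL hx

theorem schanuel_iff (C : ℕ) : Schanuel L C ↔ ∀ V : Submodule (k L) ℂ, FiniteDimensional (k L) V → df V ≤ C := by
  have h1 := bound_iff (L := L) C
  unfold df
  rw [← h1]
  unfold Schanuel
  refine forall_congr' fun n => forall_congr' fun p => imp_congr_right fun _ => imp_congr_right fun _ => ?_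
  rw [points_eq, Q88.ETO.trd_iff]

end

/-- **Main result.**

(1) Any lattice: `Schanuel L C` is equivalent to `trdeg ℚ(g₂, g₃, v, ℘(v), ζ(v) : v ∈ V) ≥ 2 dim_k V - C` for all finite
dimensional spaces `V` over a number field `K ⊇ k` with `S ⊆ V` and `dim_K V ∈ D`. Here `dim_k V` is
`[K : ℚ] dim_K V / [k : ℚ]`.

(2) A lattice stable under complex conjugation, without complex multiplication: `Schanuel L C` is equivalent to
`trdeg ℚ(g₂, g₃, xⱼ, ℘(xⱼ), ζ(xⱼ), ℘(i xⱼ), ζ(i xⱼ)) ≥ 4 n - C` for all admissible real `x₁, …, xₙ` with `n` in `D`.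

(3) A lattice stable under complex conjugation, with complex multiplication: `Schanuel L C` is equivalent to
`trdeg ℚ(g₂, g₃, xⱼ, ℘(xⱼ), ζ(xⱼ)) ≥ 2 n - C` for all admissible real `x₁, …, xₙ` with `n` in `D`. -/
theorem result :
    (∀ (L : PeriodPair) (K : IntermediateField ℚ ℂ), FiniteDimensional ℚ K → k L ≤ K →
      ∀ S : Finset ℂ, (∀ x ∈ S, ClosedForm L x) → ∀ D : Set ℕ, D.Infinite → ∀ C : ℕ,
      (Schanuel L C ↔ ∀ V : Submodule K ℂ, FiniteDimensional K V → finrank K V ∈ D → (S : Set ℂ) ⊆ V →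
        ((2 * (finrank ℚ K * finrank K V / finrank ℚ (k L)) : ℕ) : Cardinal) ≤ trd ℚ (numbers L V) + C)) ∧
    (∀ L : PeriodPair, (∀ w ∈ L.lattice, conj w ∈ L.lattice) →
      ∀ S : Finset ℝ, (∀ s ∈ S, ClosedForm L s) → ∀ U : Set ℝ, IsOpen U → U.Nonempty →
      ∀ D : Set ℕ, D.Infinite → ∀ C : ℕ,
      ((∀ c : ℂ, (∀ w ∈ L.lattice, c * w ∈ L.lattice) → ∃ m : ℤ, c = m) →
        (Schanuel L C ↔ ∀ n ∈ D, ∀ x : Fin n → ℝ, Admissible L S U x →
          ((4 * n : ℕ) : Cardinal) ≤ trd ℚ ({L.g₂, L.g₃} ∪ realPoints L x) + C)) ∧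
      ((∃ c : ℂ, (∀ w ∈ L.lattice, c * w ∈ L.lattice) ∧ ∀ m : ℤ, c ≠ m) →
        (Schanuel L C ↔ ∀ n ∈ D, ∀ x : Fin n → ℝ, Admissible L S U x →
          ((2 * n : ℕ) : Cardinal) ≤ trd ℚ ({L.g₂, L.g₃} ∪ points L (fun j => (x j : ℂ))) + C))) := by
  open Pool.Agent.Q257.RF in
  refine ⟨fun L K hf hK S hS D hD C => ?_, fun L hL S hS U hU hne D hD C => ⟨fun hCM => ?_, fun hCM => ?_⟩⟩
  · rw [schanuel_iff, main_space hK S (fun x hx => closedForm (hS x hx)) D hD C]
    refine forall_congr' fun V => imp_congr_right fun hV => imp_congr_right fun _ => imp_congr_right fun _ => ?_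
    rw [df_le_iff (Q88.ETO.fin_toK V hK), Q88.ETO.finrank_toK' V hK, Q88.ETO.trd_iff]
    exact Iff.rfl
  · rw [schanuel_iff, real_nonCM hL hCM S (fun s hs => closedForm (hS s hs)) D hD hU hne C]
    refine forall_congr' fun n => imp_congr_right fun _ => forall_congr' fun x => ?_
    rw [Q88.ETO.trd_iff]
    exact ⟨fun h hx => h hx.1 hx.2.1 hx.2.2, fun h h1 h2 h3 => h ⟨h1, h2, h3⟩⟩
  · obtain ⟨c, hc, hcm⟩ := hCM
    have hci : c.im ≠ 0 := by
      intro h0
      obtain ⟨m, hm⟩ := Pool.Agent.TH813.Ell.mult_real hc (Complex.conj_eq_iff_im.mpr h0)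
      exact hcm m hm
    rw [schanuel_iff, real_CM hL hci hc S (fun s hs => closedForm (hS s hs)) D hD hU hne C]
    refine forall_congr' fun n => imp_congr_right fun _ => forall_congr' fun x => ?_
    rw [Q88.ETO.trd_iff, points_eq]
    exact ⟨fun h hx => h hx.1 hx.2.1 hx.2.2, fun h h1 h2 h3 => h ⟨h1, h2, h3⟩⟩

end Pool.Agent.Results.MP_2ad15a_nt.RealForm
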