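import Pool.Agent.Q138.PS.WH
import Pool.Agent.Q138.AJ.R2ad15a

/-!
# Elliptic logarithms of the tuples of elements of number fields which are close to given complex points

We consider, for lattices `L_1, …, L_n`, analytic branches `p_j` of the inverse functions of `℘_j` on open connected sets `S_j`,
complex numbers `λ_1, …, λ_r` linearly independent over `ℚ`, and `x = (x_1, …, x_n)` in `k ^ n`, `k ⊂ ℂ` a number field, the numbers
`π`, `p_j (x_j)`, `ζ_j (p_j (x_j))`, `exp (λ_l p_j (x_j))`. The tuple `x` is exceptional (for `d`, `A`, `B` and `T`) if some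
nonzero polynomial of degree at most `d` in each variable, with coefficients in `k` of height at most `T ^ A`, takes at these
`n (r + 2) + 1` numbers a value of absolute value at most `T ^ (-B)`. We show that only the points `z` of a small set have
exceptional tuples among their good approximations.

* For compact `K_j ⊂ S_j`, a number field `k ⊂ ℂ`, `d`, `A` and `ε > 0` there is `B` such that for all `θ > 0`, outside a set of
  `z ∈ ℂ^n` of Hausdorff dimension at most `(2 (n - 1) + ε) / θ`, for all large `T` no exceptional tuple of `k`, of height at most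
  `T` and with `x_j ∈ K_j`, satisfies `|x_j - z_j| ≤ T ^ (-θ)` for all `j`.
* Outside a set of Hausdorff dimension ZERO, every `z` with `z_j ∈ S_j` has the property that for all number fields `k ⊂ ℂ`,
  all `d` and all `A` there are `B` and `θ` such that for all large `T` no exceptional tuple of `k` of height at most `T`, with
  `x_j ∈ S_j`, satisfies `|x_j - z_j| ≤ T ^ (-θ)` for all `j`.

The height is the multiplicative height of `k` (`Height.mulHeight₁`).
-/

set_option autoImplicit false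

namespace Pool.Agent.Results.MP_2ad15a_nt.TuplesNearGivenPoints

open Filter Pool.Agent.Q138.PS Pool.Agent.Q138.AJ.R2ad15a

theorem mono {n r d : ℕ} {L : Fin n → PeriodPair} {lam : Fin r → ℂ} {p : Fin n → ℂ → ℂ} {k : Type} [Field k] [NumberField k]
    (σ : k →+* ℂ) {K : Fin n → Set ℂ} {A B T T' : ℝ} (h1 : max 1 (2 ^ max B 0) ≤ T) (h2 : T ≤ T') (h3 : T' ≤ 2 * T) :
    Exceptional σ d L lam p K A (max B 0 + 1) T ⊆ Exceptional σ d L lam p K (max A 0) B T' := by
  have h4 : 1 ≤ T := (le_max_left _ _).trans h1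
  rintro q ⟨hq, P, hP, hd, hc, hv⟩
  exact ⟨fun l => ⟨(hq l).1, (hq l).2.trans h2⟩, P, hP, hd, fun e => (hc e).trans (num_coeff h4 h2),
    hv.trans (num_value h4 ((le_max_right _ _).trans h1) h2 h3)⟩

/-- **Theorem.** -/
theorem result (n r : ℕ) (hn : 1 ≤ n) (L : Fin n → PeriodPair) (lam : Fin r → ℂ)
    (hlam : ∀ c : Fin r → ℤ, ∑ l, (c l : ℂ) * lam l = 0 → c = 0)
    (S : Fin n → Set ℂ) (hSo : ∀ j, IsOpen (S j)) (hSc : ∀ j, IsConnected (S j))
    (p : Fin n → ℂ → ℂ) (hp : ∀ j, AnalyticOnNhd ℂ (p j) (S j)) (hpL : ∀ j, ∀ t ∈ S j, p j t ∉ (L j).lattice)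
    (hpt : ∀ j, ∀ t ∈ S j, (L j).weierstrassP (p j t) = t) :
    (∀ (K : Fin n → Set ℂ), (∀ j, IsCompact (K j)) → (∀ j, K j ⊆ S j) → ∀ (k : IntermediateField ℚ ℂ) [NumberField k] (d : ℕ)
      (A ε : ℝ), 0 < ε → ∃ B : ℝ, ∀ θ : ℝ, 0 < θ → ∃ Z : Set (Fin n → ℂ),
        dimH Z ≤ ENNReal.ofReal ((2 * (n - 1 : ℕ) + ε) / θ) ∧ ∀ z, z ∉ Z → ∀ᶠ T : ℝ in atTop,
          ∀ x ∈ Exceptional (algebraMap k ℂ) d L lam p K A B T, ∃ j, T ^ (-θ) < ‖((x j : k) : ℂ) - z j‖) ∧
    ∃ Z : Set (Fin n → ℂ), dimH Z = 0 ∧ ∀ z, z ∉ Z → (∀ j, z j ∈ S j) →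
      ∀ (k : IntermediateField ℚ ℂ) [NumberField k] (d : ℕ) (A : ℝ), ∃ B θ : ℝ, 0 < θ ∧ ∀ᶠ T : ℝ in atTop,
        ∀ x ∈ Exceptional (algebraMap k ℂ) d L lam p S A B T, ∃ j, T ^ (-θ) < ‖((x j : k) : ℂ) - z j‖ := by
  constructor
  · intro K hK hK' k _ d A ε hε
    obtain ⟨D, B, C, h⟩ := Pool.Agent.Q138.AJ.R2ad15a.result k (algebraMap k ℂ) n r d hn L lam hlam S hSo hSc p hp hpL hpt K hK hK'
      (max A 0) ε hε
    refine ⟨max B 0 + 1, fun θ hθ => ⟨_, dimH_height k (algebraMap k ℂ)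
      (fun T => Exceptional (algebraMap k ℂ) d L lam p K A (max B 0 + 1) T)
      (fun T => Exceptional (algebraMap k ℂ) d L lam p K (max A 0) B T) C 1 (max 1 (2 ^ max B 0)) ε θ hε hθ
      (fun T hT => ⟨(h T hT).2.1, (h T hT).2.2⟩) fun T T' h1 h2 h3 => mono _ h1 h2 h3, fun z hz => far_close _ _ _ z hz⟩⟩
  · have hcN := countN
    obtain ⟨Z, hZ, hz⟩ := near_open S hSo (J := {K : IntermediateField ℚ ℂ // NumberField K} × ℕ × ℕ) (fun i => i.1.1)
      (fun i => algebraMap i.1.1 ℂ) (fun i B T => haveI := i.1.2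
        Exceptional (algebraMap i.1.1 ℂ) i.2.1 L lam p S (i.2.2 : ℝ) B T) (by
        rintro ⟨⟨k, hk⟩, d, A⟩ l
        obtain ⟨D, B, C, h⟩ := Pool.Agent.Q138.AJ.R2ad15a.result k (algebraMap k ℂ) n r d hn L lam hlam S hSo hSc p hp hpL hpt
          (fun j => inner (S j) l) (fun j => inner_compact _ l) (fun j => inner_sub _ l) (max (A : ℝ) 0) 1 one_pos
        refine ⟨max B 0 + 1, 2 * (n - 1 : ℕ) + 1, fun θ hθ => dimH_height k (algebraMap k ℂ) _
          (fun T => Exceptional (algebraMap k ℂ) d L lam p (fun j => inner (S j) l) (max (A : ℝ) 0) B T) C 1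
          (max 1 (2 ^ max B 0)) 1 θ one_pos hθ (fun T hT => ⟨(h T hT).2.1, (h T hT).2.2⟩) ?_⟩
        intro T T' h1 h2 h3 q hq
        exact mono _ h1 h2 h3 ⟨fun j => ⟨hq.2 j, (hq.1.1 j).2⟩, hq.1.2⟩)
    refine ⟨Z, hZ, fun z hzZ hzΩ k hk d A => ?_⟩
    obtain ⟨B, θ, hθ, h⟩ := hz z hzZ hzΩ (⟨k, hk⟩, d, ⌈A⌉₊)
    refine ⟨B, θ, hθ, ?_⟩
    filter_upwards [h, eventually_ge_atTop 1] with T hT hT1
    intro q hq
    obtain ⟨h1, P, hP, hd, hc, hv⟩ := hq
    exact hT q ⟨h1, P, hP, hd, fun e => (hc e).trans (Real.rpow_le_rpow_of_exponent_le hT1 (Nat.le_ceil A)), hv⟩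

end Pool.Agent.Results.MP_2ad15a_nt.TuplesNearGivenPoints
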